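import Pool.Agent.H91.SecondIdx

set_option autoImplicit false

open H91.SecondIdx in
theorem Pool.Agent.Results.MP_01d095_an.L2Sum.result (Y W : Type*)
    [NormedAddCommGroup Y] [NormedSpace ℝ Y] [CompleteSpace Y] [Nontrivial Y]
    [NormedAddCommGroup W] [NormedSpace ℝ W] [CompleteSpace W] [Nontrivial W] :
    n2 (WithLp 2 (Y × W)) ≤ min (n2 Y) (n2 W) :=
  main Y W
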